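import Pool.Agent.H.MP_911b3a_co.D

set_option autoImplicit false

namespace Pool.Agent.H.MP_668c10_co

open Finset Equiv Classical Pool.Agent.H.MP_911b3a_co

noncomputable def ct (n : ℕ) (R : ℕ → Prop) : ℕ := ((range (n + 1)).filter R).card

lemma ct_congr {n : ℕ} {R R' : ℕ → Prop} (h : ∀ q ≤ n, R q ↔ R' q) : ct n R = ct n R' := by
  rw [ct, ct, filter_congr fun q hq => h q (by rw [mem_range] at hq; omega)]

lemma ct_zero {n : ℕ} {R : ℕ → Prop} (h : ∀ q ≤ n, ¬ R q) : ct n R = 0 :=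
  card0 fun q hq => h q (by rw [mem_range] at hq; omega)

lemma ct_add {n : ℕ} {R R1 R2 : ℕ → Prop} (h : ∀ q ≤ n, R q ↔ R1 q ∨ R2 q)
    (h' : ∀ q ≤ n, R1 q → ¬ R2 q) : ct n R = ct n R1 + ct n R2 := by
  simp only [ct, card_filter, ← sum_add_distrib]
  refine sum_congr rfl fun q hq => ?_
  have h1 := h q (by rw [mem_range] at hq; omega)
  have h2 := h' q (by rw [mem_range] at hq; omega)
  by_cases a : R1 q <;> by_cases b : R2 q <;> simp_all

lemma ct_one {n p : ℕ} (hp : p ≤ n) (c : Prop) : ct n (fun q => q = p ∧ c) = if c then 1 else 0 := by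
  by_cases h : c
  · rw [if_pos h, ct, card_eq_one]
    exact ⟨p, by ext q; simp only [h, and_true, mem_filter, mem_range, mem_singleton]; omega⟩
  · rw [if_neg h]; exact ct_zero fun q _ g => h g.2

lemma ct_split (R : ℕ → Prop) {p n : ℕ} (hp : p ≤ n) :
    ct (n + 1) R = ct n (fun q => q ≤ p ∧ R q) + ct n (fun q => p ≤ q ∧ R (q + 1)) := by
  rw [ct_add (R := fun q => p ≤ q ∧ R (q + 1)) (R1 := fun q => q = p ∧ R (p + 1))
    (R2 := fun q => p < q ∧ R (q + 1)) (fun q _ => by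
      rcases lt_trichotomy q p with g | rfl | g
      · simp [g.ne, not_le.2 g, g.le]
      · simp
      · simp [g.ne', g, g.le]) (fun q _ => by omega), ct_one hp, ct, split R hp, add_assoc]
  unfold ct
  congr!

lemma ct_mono {n : ℕ} {R R' : ℕ → Prop} (h : ∀ q ≤ n, R q → R' q) : ct n R ≤ ct n R' := by
  refine card_le_card fun q hq => ?_
  rw [mem_filter, mem_range] at hq ⊢
  exact ⟨hq.1, h q (by omega) hq.2⟩

lemma ct_lt {n p : ℕ} {R R' : ℕ → Prop} (h : ∀ q ≤ n, R q → R' q) (hp : p ≤ n) (h1 : R' p)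
    (h2 : ¬ R p) : ct n R < ct n R' := by
  refine card_lt_card ⟨fun q hq => ?_, fun g => h2 (mem_filter.1 (g ?_)).2⟩
  · rw [mem_filter, mem_range] at hq ⊢
    exact ⟨hq.1, h q (by omega) hq.2⟩
  · rw [mem_filter, mem_range]; exact ⟨by omega, h1⟩

lemma ct_min {n : ℕ} (O U V : ℕ → Prop) (h : ∀ x y, U x → ¬ V x → V y → U y) :
    ct n (fun q => O q ∧ U q ∧ V q) = min (ct n fun q => O q ∧ U q) (ct n fun q => O q ∧ V q) := by
  by_cases g : ∀ x, U x → V x
  · rw [min_eq_left (ct_mono fun q _ a => ⟨a.1, g q a.2⟩)]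
    exact ct_congr fun q _ => ⟨fun a => ⟨a.1, a.2.1⟩, fun a => ⟨a.1, a.2, g q a.2⟩⟩
  · push Not at g
    obtain ⟨x, g1, g2⟩ := g
    rw [min_eq_right (ct_mono fun q _ a => ⟨a.1, h x q g1 g2 a.2⟩)]
    exact ct_congr fun q _ => ⟨fun a => ⟨a.1, a.2.2⟩, fun a => ⟨a.1, h x q g1 g2 a.2, a.2⟩⟩

noncomputable def lr (n : ℕ) (O : ℕ → Prop) (p : ℕ) : ℕ := ct n fun q => O q ∧ q < p
noncomputable def rr (n : ℕ) (O : ℕ → Prop) (p : ℕ) : ℕ := ct n fun q => O q ∧ p ≤ q

lemma lr_rr (n : ℕ) (O : ℕ → Prop) (p : ℕ) : lr n O p + rr n O p = ct n O :=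
  (ct_add (fun q _ => by by_cases O q <;> simp [*]; omega) (fun q _ => by omega)).symm

lemma lr_lt {n p q : ℕ} {O : ℕ → Prop} (hp : p ≤ n) (h : O p) (g : p < q) : lr n O p < lr n O q :=
  ct_lt (fun x _ a => ⟨a.1, by omega⟩) hp ⟨h, g⟩ (by simp)

lemma lr_le {n p q : ℕ} {O : ℕ → Prop} (g : p ≤ q) : lr n O p ≤ lr n O q :=
  ct_mono fun x _ a => ⟨a.1, by omega⟩

lemma lr_ltN {n p : ℕ} {O : ℕ → Prop} (hp : p ≤ n) (h : O p) : lr n O p < ct n O :=
  ct_lt (fun x _ a => a.1) hp h (by simp)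

lemma lr_surj {n t : ℕ} {O : ℕ → Prop} (h : t < ct n O) : ∃ p ≤ n, O p ∧ lr n O p = t := by
  obtain ⟨p, hp, e⟩ := surj_on_of_inj_on_of_card_le (s := (range (n + 1)).filter O)
    (t := range (ct n O)) (fun p _ => lr n O p) (fun p hp => by
      rw [mem_filter, mem_range] at hp
      exact mem_range.2 (lr_ltN (by omega) hp.2)) (fun p q hp hq e => by
      rw [mem_filter, mem_range] at hp hq
      rcases lt_trichotomy p q with g | g | g
      · exact absurd e (lr_lt (by omega) hp.2 g).ne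
      · exact g
      · exact absurd e (lr_lt (by omega) hq.2 g).ne') (by simp [ct]) t (mem_range.2 h)
  rw [mem_filter, mem_range] at hp
  exact ⟨p, by omega, hp.2, e.symm⟩

lemma lr_inj {n p q : ℕ} {O : ℕ → Prop} (hp : p ≤ n) (hq : q ≤ n) (h : O p) (h' : O q)
    (e : lr n O p = lr n O q) : p = q := by
  rcases lt_trichotomy p q with g | g | g
  · exact absurd e (lr_lt hp h g).ne
  · exact g
  · exact absurd e (lr_lt hq h' g).ne'

lemma lr_zero (n : ℕ) (O : ℕ → Prop) : lr n O 0 = 0 := ct_zero fun q _ => by simp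

lemma sum_match {n : ℕ} {O O' : ℕ → Prop} {s : Prop} (f g : ℕ → ℕ) (hN : ct n O = ct n O')
    (h0 : O 0) (h0' : O' 0)
    (h : ∀ p ≤ n, ∀ q ≤ n, O p → O' q → (s → p ≠ 0) → (s → q ≠ 0) →
      lr n O p + (if s then 0 else 1) = rr n O' q → f p = g q) :
    ∑ p ∈ range (n + 1), (if O p ∧ (s → p ≠ 0) then f p else 0) =
      ∑ q ∈ range (n + 1), if O' q ∧ (s → q ≠ 0) then g q else 0 := by
  have key : ∀ (O O' : ℕ → Prop), ct n O = ct n O' → O 0 → O' 0 → ∀ p ≤ n, O p → (s → p ≠ 0) →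
      ∃ q ≤ n, O' q ∧ (s → q ≠ 0) ∧ lr n O p + (if s then 0 else 1) + lr n O' q = ct n O := by
    intro O O' hN h0 h0' p hp h1 h2
    have a := lr_ltN hp h1
    have b : s → 0 < lr n O p := fun hs => by
      have := lr_lt (Nat.zero_le n) h0 (Nat.pos_of_ne_zero (h2 hs))
      omega
    obtain ⟨q, c1, c2, c3⟩ := lr_surj (n := n) (O := O')
      (t := ct n O - (lr n O p + if s then 0 else 1)) (by by_cases hs : s <;> simp [hs] at * <;> omega)
    refine ⟨q, c1, c2, fun hs e => ?_, by by_cases hs : s <;> simp [hs] at * <;> omega⟩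
    rw [e, lr_zero, if_pos hs] at c3
    omega
  rw [← sum_filter, ← sum_filter]
  choose! F hF using key O O' hN h0 h0'
  refine sum_nbij F (fun p hp => ?_) (fun p hp q hq e => ?_) (fun q hq => ?_) (fun p hp => ?_)
  · simp only [mem_filter, mem_range] at hp ⊢
    have := hF p (by omega) hp.2.1 hp.2.2
    exact ⟨by omega, this.2.1, this.2.2.1⟩
  · simp only [coe_filter, mem_range, Set.mem_ofPred_eq] at hp hq
    have a := hF p (by omega) hp.2.1 hp.2.2
    have b := hF q (by omega) hq.2.1 hq.2.2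
    rw [e] at a
    exact lr_inj (n := n) (by omega) (by omega) hp.2.1 hq.2.1 (by omega)
  · simp only [coe_filter, mem_range, Set.mem_ofPred_eq] at hq
    obtain ⟨p, a1, a2, a3, a4⟩ := key O' O hN.symm h0' h0 q (by omega) hq.2.1 hq.2.2
    have b := hF p a1 a2 a3
    exact ⟨p, by simp only [coe_filter, mem_range, Set.mem_ofPred_eq]; exact ⟨by omega, a2, a3⟩,
      lr_inj b.1 (by omega) b.2.1 hq.2.1 (by omega)⟩
  · simp only [mem_filter, mem_range] at hp
    have b := hF p (by omega) hp.2.1 hp.2.2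
    have c := lr_rr n O' (F p)
    exact h p (by omega) _ b.1 hp.2.1 b.2.1 hp.2.2 b.2.2.1 (by omega)

def Bd (n : ℕ) (w : ℕ → ℕ) : Prop := ∀ i < n, w i < n

lemma Bd.ins {n p : ℕ} {w : ℕ → ℕ} (h : Bd n w) (hp : p ≤ n) : Bd (n + 1) (insF w p n) := by
  intro i hi
  rcases up_or p i with rfl | ⟨i, rfl⟩
  · rw [ins_eq]; omega
  · have := up_c p i
    have := h i (by omega)
    rw [ins_up]; omega

structure Cls (S : ℕ → Prop) where
  V : ℕ → (ℕ → ℕ) → Prop
  O : ℕ → (ℕ → ℕ) → ℕ → Prop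
  v0 : ∀ w, V 0 w
  o0 : ∀ n w, V n w → O n w 0
  step : ∀ n w p, Bd n w → p ≤ n → (V (n + 1) (insF w p n) ↔ V n w ∧ O n w p ∧ (S n → p ≠ 0))

variable {S : ℕ → Prop}

noncomputable def Z (X : Cls S) : ℕ → ℕ → (ℕ → ℕ) → ℕ
  | 0, _, _ => 1
  | m + 1, n, w => ∑ p ∈ range (n + 1),
      if X.O n w p ∧ (S n → p ≠ 0) then Z X m (n + 1) (insF w p n) else 0

lemma Z_count (X : Cls S) (n : ℕ) : ∀ m, ∑ π : Perm (Fin n),
    (if X.V n (val π) then Z X m n (val π) else 0) = Z X (n + m) 0 (fun _ => 0) := by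
  induction n with
  | zero =>
    intro m
    have : ∀ π : Perm (Fin 0), val π = fun _ => 0 := fun π => by funext i; simp [MP_911b3a_co.val]
    simp [this, X.v0]
  | succ n ih =>
    intro m
    rw [← ins_bij.sum_comp, Fintype.sum_prod_type_right, show n + 1 + m = n + (m + 1) by ring, ← ih]
    refine sum_congr rfl fun π _ => ?_
    simp only [val_ins]
    rw [Fin.sum_univ_eq_sum_range (fun p => if X.V (n + 1) (insF (val π) p n) then
      Z X m (n + 1) (insF (val π) p n) else 0), Z]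
    split_ifs with h
    · refine sum_congr rfl fun p hp => if_congr ?_ rfl rfl
      rw [X.step n _ p (val_lt π) (by rw [mem_range] at hp; omega)]
      simp [h]
    · refine sum_eq_zero fun p hp => if_neg ?_
      rw [X.step n _ p (val_lt π) (by rw [mem_range] at hp; omega)]
      simp [h]

theorem simul (X Y : Cls S) (Rel : ℕ → (ℕ → ℕ) → (ℕ → ℕ) → Prop)
    (r0 : Rel 0 (fun _ => 0) (fun _ => 0))
    (rN : ∀ n w w', Rel n w w' → ct n (X.O n w) = ct n (Y.O n w'))
    (rs : ∀ n w w' p q, Bd n w → Bd n w' → Rel n w w' → p ≤ n → q ≤ n → X.O n w p → Y.O n w' q →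
      (S n → p ≠ 0) → (S n → q ≠ 0) →
      lr n (X.O n w) p + (if S n then 0 else 1) = rr n (Y.O n w') q →
      Rel (n + 1) (insF w p n) (insF w' q n)) (n : ℕ) :
    (univ.filter fun π : Perm (Fin n) => X.V n (val π)).card =
      (univ.filter fun π : Perm (Fin n) => Y.V n (val π)).card := by
  have key : ∀ m n w w', Bd n w → Bd n w' → X.V n w → Y.V n w' → Rel n w w' →
      Z X m n w = Z Y m n w' := by
    intro m
    induction m with
    | zero => intros; rfl
    | succ m ih =>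
      intro n w w' b b' v v' r
      rw [Z, Z]
      exact sum_match _ _ (rN _ _ _ r) (X.o0 _ _ v) (Y.o0 _ _ v') fun p hp q hq a1 a2 a3 a4 a5 =>
        ih _ _ _ (b.ins hp) (b'.ins hq) ((X.step _ _ _ b hp).2 ⟨v, a1, a3⟩)
          ((Y.step _ _ _ b' hq).2 ⟨v', a2, a4⟩) (rs _ _ _ _ _ b b' r hp hq a1 a2 a3 a4 a5)
  rw [card_filter, card_filter]
  exact (Z_count X n 0).trans ((key _ 0 _ _ (fun _ h => by omega) (fun _ h => by omega)
    (X.v0 _) (Y.v0 _) r0).trans (Z_count Y n 0).symm)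

def op (S : ℕ → Prop) (n : ℕ) (w : ℕ → ℕ) (q : ℕ) : Prop := q < n → ¬ S (w q)

def AS (S : ℕ → Prop) (n : ℕ) (w : ℕ → ℕ) : Prop :=
  ∀ i < n, S (w i) → 1 ≤ i ∧ w (i - 1) < w i

variable {w : ℕ → ℕ} {n p : ℕ}

lemma AS_ins (hw : Bd n w) (hp : p ≤ n) :
    AS S (n + 1) (insF w p n) ↔ AS S n w ∧ op S n w p ∧ (S n → p ≠ 0) := by
  constructor
  · intro h
    have h0 : op S n w p := by
      intro hi hS
      have := h (p + 1) (by omega) (by rwa [ins_hi le_rfl])
      rw [Nat.add_sub_cancel, ins_eq, ins_hi le_rfl] at this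
      have := hw p hi
      omega
    refine ⟨fun i hi hS => ?_, h0, fun hS => ?_⟩
    · rcases lt_trichotomy i p with g | rfl | g
      · have := h i (by omega) (by rwa [ins_lo g])
        rwa [ins_lo g, ins_lo (by omega)] at this
      · exact absurd hS (h0 hi)
      · obtain ⟨i, rfl⟩ : ∃ j, i = j + 1 := ⟨i - 1, by omega⟩
        have := h (i + 1 + 1) (by omega) (by rwa [ins_hi (by omega)])
        rw [Nat.add_sub_cancel, ins_hi (by omega), ins_hi (by omega)] at this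
        exact ⟨by omega, this.2⟩
    · have := h p (by omega) (by rwa [ins_eq])
      omega
  · rintro ⟨h1, h2, h3⟩ i hi hS
    rcases lt_trichotomy i p with g | rfl | g
    · rw [ins_lo g] at hS ⊢
      rw [ins_lo (by omega)]
      exact h1 i (by omega) hS
    · rw [ins_eq] at hS ⊢
      have := h3 hS
      rw [ins_lo (by omega)]
      exact ⟨by omega, hw _ (by omega)⟩
    · obtain ⟨i, rfl⟩ : ∃ j, i = j + 1 := ⟨i - 1, by omega⟩
      rw [ins_hi (by omega)] at hS ⊢
      have g1 : i ≠ p := fun e => h2 (by omega) (e ▸ hS)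
      obtain ⟨i, rfl⟩ : ∃ j, i = j + 1 := ⟨i - 1, by omega⟩
      rw [Nat.add_sub_cancel, ins_hi (by omega)]
      exact ⟨by omega, (h1 (i + 1) (by omega) hS).2⟩

lemma op_lo (hp : p ≤ n) {q : ℕ} (h : q < p) : op S (n + 1) (insF w p n) q ↔ op S n w q := by
  simp only [op, ins_lo h]
  exact ⟨fun g _ => g (by omega), fun g _ => g (by omega)⟩

lemma op_eq (hp : p ≤ n) : op S (n + 1) (insF w p n) p ↔ ¬ S n := by
  simp only [op, ins_eq]
  exact ⟨fun g => g (by omega), fun g _ => g⟩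

lemma op_hi {q : ℕ} (h : p ≤ q) : op S (n + 1) (insF w p n) (q + 1) ↔ op S n w q := by
  simp only [op, ins_hi h, Nat.add_lt_add_iff_right]

lemma op_0 (h : AS S n w) : op S n w 0 := fun g hS => by have := h 0 g hS; omega

end Pool.Agent.H.MP_668c10_co
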