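import Pool.Agent.H.MP_668c10_co.A

set_option autoImplicit false

namespace Pool.Agent.H.MP_668c10_co

open Finset Equiv Classical Pool.Agent.H.MP_911b3a_co

variable {S T : ℕ → Prop} {w : ℕ → ℕ} {n p : ℕ}

lemma ct_le_split (hp : p ≤ n) (R : ℕ → Prop) : ct n (fun q => q ≤ p ∧ op S (n + 1) (insF w p n) q ∧ R q)
    = ct n (fun q => (op S n w q ∧ R q) ∧ q < p) + if R p then (if S n then 0 else 1) else 0 := by
  rw [ct_add (R1 := fun q => (op S n w q ∧ R q) ∧ q < p) (R2 := fun q => q = p ∧ (¬ S n ∧ R p))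
    (fun q _ => by
      rcases lt_trichotomy q p with g | rfl | g
      · simp [g, g.le, g.ne, op_lo hp g]
      · simp [op_eq hp]
      · simp [g.ne', not_le.2 g, g.le]) (fun q _ => by omega), ct_one hp]
  by_cases a : S n <;> by_cases b : R p <;> simp [a, b]

def c1A (T : ℕ → Prop) (n : ℕ) (w : ℕ → ℕ) : Prop :=
  ∀ b j k, b < j → j < k → k < n → T (w b) → w b < w k → w j ≤ w k
def a1A (T : ℕ → Prop) (n : ℕ) (w : ℕ → ℕ) (p : ℕ) : Prop :=
  ∀ b k, b < p → p ≤ k → k < n → T (w b) → w k ≤ w b
def pr (T : ℕ → Prop) (w : ℕ → ℕ) (q : ℕ) : Prop := ∀ b < q, ¬ T (w b)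

lemma c1A_ins (hw : Bd n w) (hp : p ≤ n) :
    c1A T (n + 1) (insF w p n) ↔ c1A T n w ∧ a1A T n w p := by
  constructor
  · intro h
    refine ⟨fun a b c h1 h2 h3 => ?_, fun b k h1 h2 h3 h4 => ?_⟩
    · have := up_c p a; have := up_c p b; have := up_c p c
      have := h (up p a) (up p b) (up p c) (by omega) (by omega) (by omega)
      simpa only [ins_up] using this
    · have := h b p (k + 1) h1 (by omega) (by omega)
      rw [ins_lo h1, ins_eq, ins_hi h2] at this
      have := this h4
      have := hw k h3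
      omega
  · rintro ⟨g1, g2⟩ a b c h1 h2 h3
    rcases up_or p c with rfl | ⟨c, rfl⟩
    · rw [ins_eq, ins_lo h2]
      have := hw b (by omega)
      omega
    have := up_c p c
    have := hw c (by omega)
    rcases up_or p a with rfl | ⟨a, rfl⟩
    · rw [ins_eq, ins_up]; omega
    have := up_c p a
    rcases up_or p b with rfl | ⟨b, rfl⟩
    · simp only [ins_eq, ins_up]
      intro h4
      have := g2 a c (by omega) (by omega) (by omega) h4
      omega
    have := up_c p b
    simp only [ins_up]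
    exact g1 a b c (by omega) (by omega) (by omega)

lemma a1A_lo (hw : Bd n w) (hp : p ≤ n) {q : ℕ} (h : q ≤ p) :
    a1A T (n + 1) (insF w p n) q ↔ pr T w q := by
  constructor
  · intro g b h1 h2
    have := g b p h1 h (by omega) (by rwa [ins_lo (by omega)])
    rw [ins_eq, ins_lo (by omega)] at this
    have := hw b (by omega)
    omega
  · intro g b k h1 _ _ h4
    rw [ins_lo (by omega)] at h4
    exact absurd h4 (g b h1)

lemma a1A_hi (hw : Bd n w) {q : ℕ} (h : p ≤ q) :
    a1A T (n + 1) (insF w p n) (q + 1) ↔ a1A T n w q := by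
  constructor
  · intro g a b h1 h2 h3
    have := up_c p a; have := up_c p b
    have := g (up p a) (up p b) (by omega) (by omega) (by omega)
    simpa only [ins_up] using this
  · intro g a c h1 h2 h3
    obtain ⟨c, rfl⟩ : ∃ j, c = j + 1 := ⟨c - 1, by omega⟩
    rw [ins_hi (by omega)]
    have := hw c (by omega)
    rcases up_or p a with rfl | ⟨a, rfl⟩
    · rw [ins_eq]; omega
    have := up_c p a
    simp only [ins_up]
    exact g a c (by omega) (by omega) (by omega)

lemma pr_lo {q : ℕ} (h : q ≤ p) : pr T (insF w p n) q ↔ pr T w q :=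
  forall_congr' fun b => forall_congr' fun g => by rw [ins_lo (by omega)]

lemma pr_hi {q : ℕ} (h : p ≤ q) : pr T (insF w p n) (q + 1) ↔ pr T w q ∧ ¬ T n := by
  constructor
  · intro g
    refine ⟨fun b h1 => ?_, by simpa [ins_eq] using g p (by omega)⟩
    have := up_c p b
    simpa only [ins_up] using g (up p b) (by omega)
  · rintro ⟨g1, g2⟩ b h1
    rcases up_or p b with rfl | ⟨b, rfl⟩
    · rwa [ins_eq]
    · have := up_c p b
      rw [ins_up]; exact g1 b (by omega)

lemma pr_a {q : ℕ} (h : pr T w q) : a1A T n w q := fun b _ h1 _ _ h4 => absurd h4 (h b h1)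

def X1 (S T : ℕ → Prop) : Cls S where
  V n w := AS S n w ∧ c1A T n w
  O n w p := op S n w p ∧ a1A T n w p
  v0 w := ⟨fun _ h => by omega, fun _ _ _ _ _ h => by omega⟩
  o0 n w h := ⟨op_0 h.1, fun _ _ h => by omega⟩
  step n w p h1 h2 := by rw [AS_ins h1 h2, c1A_ins h1 h2]; tauto

noncomputable def L1 (S T : ℕ → Prop) (n : ℕ) (w : ℕ → ℕ) : ℕ :=
  ct n fun q => (X1 S T).O n w q ∧ pr T w q

lemma X1_lab (hw : Bd n w) (hp : p ≤ n) (h : (X1 S T).O n w p) (t l m e : ℕ)
    (ht : t = lr n ((X1 S T).O n w) p) (hl : l = L1 S T n w) (hm : m = min t l)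
    (he : e = if t < l then (if S n then 0 else 1) else 0) :
    ct (n + 1) ((X1 S T).O (n + 1) (insF w p n)) = m + e + rr n ((X1 S T).O n w) p ∧
    L1 S T (n + 1) (insF w p n) = m + e + if T n then 0 else l - m := by
  have h1 : pr T w p ↔ t < l := by
    rw [ht, hl]
    refine ⟨fun g => ct_lt (fun q _ a => ⟨a.1, fun b hb => g b (by omega)⟩) hp ⟨h, g⟩ (by simp),
      fun g => ?_⟩
    by_contra g1
    refine absurd g (not_lt.2 (ct_mono fun q _ a => ⟨a.1, ?_⟩))
    by_contra g2
    exact g1 fun b hb => a.2 b (by omega)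
  have h2 : ct n (fun q => (X1 S T).O n w q ∧ q < p ∧ pr T w q) = m := by
    rw [hm, ht, hl]
    exact ct_min _ _ _ fun x y a b c => by
      by_contra g
      exact b fun z hz => c z (by omega)
  have h3 : ct n (fun q => q ≤ p ∧ op S (n + 1) (insF w p n) q ∧ pr T w q) = m + e := by
    rw [ct_le_split hp, he, ← h2]
    simp only [h1]
    congr 1
    exact ct_congr fun q _ => by have := pr_a (T := T) (n := n) (w := w) (q := q); simp only [X1]; tauto
  constructor
  · rw [ct_split _ hp, ← h3, rr]
    congr 1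
    · exact ct_congr fun q _ => and_congr_right fun g => by simp only [X1, a1A_lo hw hp g]
    · exact ct_congr fun q _ => by
        rw [and_comm]
        exact and_congr_left fun g => by simp only [X1, a1A_hi hw g, op_hi g]
  · rw [L1, ct_split _ hp, ← h3]
    congr 1
    · exact ct_congr fun q _ => and_congr_right fun g => by
        simp only [X1, a1A_lo hw hp g, pr_lo g]; tauto
    · split_ifs with a
      · exact ct_zero fun q _ g => ((pr_hi g.1).1 g.2.2).2 a
      · rw [hl, L1, ct_add (R := fun q => (X1 S T).O n w q ∧ pr T w q)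
          (R1 := fun q => (X1 S T).O n w q ∧ q < p ∧ pr T w q)
          (R2 := fun q => p ≤ q ∧ (X1 S T).O n w q ∧ pr T w q)
          (fun q _ => by rcases lt_or_ge q p with g | g <;> simp [g, not_le.2, not_lt.2])
          (fun q _ => by omega), h2, Nat.add_sub_cancel_left]
        exact ct_congr fun q _ => and_congr_right fun g => by
          simp only [X1, a1A_hi hw g, op_hi g, pr_hi g, a]; tauto

def c1B (T : ℕ → Prop) (n : ℕ) (w : ℕ → ℕ) : Prop :=
  ∀ j k b, j < k → k < b → b < n → T (w b) → w b < w j → w k ≤ w j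
def a1B (T : ℕ → Prop) (n : ℕ) (w : ℕ → ℕ) (p : ℕ) : Prop :=
  ∀ j b, j < p → p ≤ b → b < n → T (w b) → w j ≤ w b
def sf (T : ℕ → Prop) (n : ℕ) (w : ℕ → ℕ) (q : ℕ) : Prop := ∀ b, q ≤ b → b < n → ¬ T (w b)

lemma c1B_ins (hw : Bd n w) (hp : p ≤ n) :
    c1B T (n + 1) (insF w p n) ↔ c1B T n w ∧ a1B T n w p := by
  constructor
  · intro h
    refine ⟨fun a b c h1 h2 h3 => ?_, fun j b h1 h2 h3 h4 => ?_⟩
    · have := up_c p a; have := up_c p b; have := up_c p c
      have := h (up p a) (up p b) (up p c) (by omega) (by omega) (by omega)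
      simpa only [ins_up] using this
    · have := h j p (b + 1) h1 (by omega) (by omega)
      rw [ins_lo h1, ins_eq, ins_hi h2] at this
      have := this h4
      have := hw j (by omega)
      omega
  · rintro ⟨g1, g2⟩ a b c h1 h2 h3
    rcases up_or p c with rfl | ⟨c, rfl⟩
    · rw [ins_eq, ins_lo (h1.trans h2)]
      have := hw a (by omega)
      omega
    have := up_c p c
    rcases up_or p b with rfl | ⟨b, rfl⟩
    · simp only [ins_eq, ins_up, ins_lo h1]
      intro h4
      have := g2 a c (by omega) (by omega) (by omega) h4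
      omega
    have := up_c p b
    have := hw b (by omega)
    rcases up_or p a with rfl | ⟨a, rfl⟩
    · simp only [ins_eq, ins_up]; omega
    have := up_c p a
    simp only [ins_up]
    exact g1 a b c (by omega) (by omega) (by omega)

lemma a1B_hi (hw : Bd n w) {q : ℕ} (h : p ≤ q) :
    a1B T (n + 1) (insF w p n) (q + 1) ↔ sf T n w q := by
  constructor
  · intro g b h1 h2 h3
    have := g p (b + 1) (by omega) (by omega) (by omega) (by rwa [ins_hi (by omega)])
    rw [ins_eq, ins_hi (by omega)] at this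
    have := hw b h2
    omega
  · intro g a b _ h2 h3 h4
    obtain ⟨b, rfl⟩ : ∃ j, b = j + 1 := ⟨b - 1, by omega⟩
    rw [ins_hi (by omega)] at h4
    exact absurd h4 (g b (by omega) (by omega))

lemma a1B_lo (hw : Bd n w) (hp : p ≤ n) {q : ℕ} (h : q ≤ p) :
    a1B T (n + 1) (insF w p n) q ↔ a1B T n w q := by
  constructor
  · intro g a b h1 h2 h3
    have := up_c p a; have := up_c p b
    have := g (up p a) (up p b) (by omega) (by omega) (by omega)
    simpa only [ins_up] using this
  · intro g a c h1 h2 h3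
    rw [ins_lo (i := a) (by omega)]
    have := hw a (by omega)
    rcases up_or p c with rfl | ⟨c, rfl⟩
    · rw [ins_eq]; omega
    have := up_c p c
    simp only [ins_up]
    exact g a c (by omega) (by omega) (by omega)

lemma sf_hi {q : ℕ} (h : p ≤ q) : sf T (n + 1) (insF w p n) (q + 1) ↔ sf T n w q := by
  constructor
  · intro g b h1 h2
    simpa only [ins_hi (show p ≤ b by omega)] using g (b + 1) (by omega) (by omega)
  · intro g b h1 h2
    obtain ⟨b, rfl⟩ : ∃ j, b = j + 1 := ⟨b - 1, by omega⟩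
    rw [ins_hi (by omega)]
    exact g b (by omega) (by omega)

lemma sf_lo (hp : p ≤ n) {q : ℕ} (h : q ≤ p) :
    sf T (n + 1) (insF w p n) q ↔ sf T n w q ∧ ¬ T n := by
  constructor
  · intro g
    refine ⟨fun b h1 h2 => ?_, by simpa [ins_eq] using g p h (by omega)⟩
    have := up_c p b
    simpa only [ins_up] using g (up p b) (by omega) (by omega)
  · rintro ⟨g1, g2⟩ b h1 h2
    rcases up_or p b with rfl | ⟨b, rfl⟩
    · rwa [ins_eq]
    · have := up_c p b
      rw [ins_up]; exact g1 b (by omega) (by omega)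

lemma sf_a {q : ℕ} (h : sf T n w q) : a1B T n w q := fun _ b _ h2 h3 h4 => absurd h4 (h b h2 h3)

def Y1 (S T : ℕ → Prop) : Cls S where
  V n w := AS S n w ∧ c1B T n w
  O n w p := op S n w p ∧ a1B T n w p
  v0 w := ⟨fun _ h => by omega, fun _ _ _ _ _ h => by omega⟩
  o0 n w h := ⟨op_0 h.1, fun _ _ h => by omega⟩
  step n w p h1 h2 := by rw [AS_ins h1 h2, c1B_ins h1 h2]; tauto

noncomputable def M1 (S T : ℕ → Prop) (n : ℕ) (w : ℕ → ℕ) : ℕ :=
  ct n fun q => (Y1 S T).O n w q ∧ sf T n w q

lemma Y1_lab (hw : Bd n w) (hp : p ≤ n) (h : (Y1 S T).O n w p) (r l m : ℕ)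
    (ht : r = rr n ((Y1 S T).O n w) p) (hl : l = M1 S T n w) (hm : m = min r l) :
    ct (n + 1) ((Y1 S T).O (n + 1) (insF w p n)) =
      lr n ((Y1 S T).O n w) p + (if S n then 0 else 1) + m ∧
    M1 S T (n + 1) (insF w p n) = (if T n then 0 else
      l - m + if r ≤ l then (if S n then 0 else 1) else 0) + m := by
  have h1 : sf T n w p ↔ r ≤ l := by
    rw [ht, hl]
    refine ⟨fun g => ct_mono fun q _ a => ⟨a.1, fun b hb => g b (by omega)⟩, fun g => ?_⟩
    by_contra g1
    refine absurd g (not_le.2 (ct_lt (fun q _ a => ⟨a.1, ?_⟩) hp ⟨h, le_rfl⟩ (fun a => g1 a.2)))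
    by_contra g2
    exact g1 fun b hb => a.2 b (by omega)
  have h2 : ct n (fun q => (Y1 S T).O n w q ∧ p ≤ q ∧ sf T n w q) = m := by
    rw [hm, ht, hl]
    exact ct_min _ _ _ fun x y a b c => by
      by_contra g
      exact b fun z hz => c z (by omega)
  constructor
  · rw [ct_split _ hp, ← h2, lr]
    congr 1
    · have := ct_le_split (S := S) (w := w) hp (a1B T n w)
      rw [if_pos h.2] at this
      refine Eq.trans (ct_congr fun q _ => and_congr_right fun g => ?_) this
      simp only [Y1, a1B_lo hw hp g]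
    · exact ct_congr fun q _ => by
        have := sf_a (T := T) (n := n) (w := w) (q := q)
        by_cases g : p ≤ q
        · simp only [Y1, a1B_hi hw g, op_hi g]; tauto
        · simp [g]
  · rw [M1, ct_split _ hp, ← h2]
    congr 1
    · by_cases a : T n
      · rw [if_pos a]
        exact ct_zero fun q _ g => ((sf_lo hp g.1).1 g.2.2).2 a
      · have := ct_le_split (S := S) (w := w) hp (fun q => a1B T n w q ∧ sf T n w q)
        simp only [h.2, h1, true_and] at this
        have e : l - m = ct n (fun q => (op S n w q ∧ a1B T n w q ∧ sf T n w q) ∧ q < p) := by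
          rw [hl, M1, ct_add (R := fun q => (Y1 S T).O n w q ∧ sf T n w q)
            (R1 := fun q => (Y1 S T).O n w q ∧ p ≤ q ∧ sf T n w q)
            (R2 := fun q => (op S n w q ∧ a1B T n w q ∧ sf T n w q) ∧ q < p)
            (fun q _ => by
              rcases lt_or_ge q p with g | g <;> simp [Y1, g, not_le.2, not_lt.2, and_assoc])
            (fun q _ => by omega), h2, Nat.add_sub_cancel_left]
        rw [if_neg a, h2, e]
        refine Eq.trans (ct_congr fun q _ => and_congr_right fun g => ?_) this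
        simp only [Y1, a1B_lo hw hp g, sf_lo hp g, a]; tauto
    · exact ct_congr fun q _ => by
        have := sf_a (T := T) (n := n) (w := w) (q := q)
        by_cases g : p ≤ q
        · simp only [Y1, a1B_hi hw g, op_hi g, sf_hi g]; tauto
        · simp [g]

theorem Q1core (hT : ∀ v, T v → S v) (n : ℕ) :
    (univ.filter fun π : Perm (Fin n) => (X1 S T).V n (val π)).card =
      (univ.filter fun π : Perm (Fin n) => (Y1 S T).V n (val π)).card := by
  refine simul _ _ (fun n w w' => ct n ((X1 S T).O n w) = ct n ((Y1 S T).O n w') ∧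
    L1 S T n w = M1 S T n w') ?_ (fun _ _ _ h => h.1) ?_ n
  · constructor
    · exact ct_congr fun q hq => by simp [X1, Y1, a1A, a1B]
    · exact ct_congr fun q hq => by
        obtain rfl : q = 0 := by omega
        simp [X1, Y1, a1A, a1B, pr, sf]
  · rintro n w w' p q b b' ⟨r1, r2⟩ hp hq a1 a2 - - a5
    obtain ⟨e1, e2⟩ := X1_lab b hp a1 _ _ _ _ rfl rfl rfl rfl
    obtain ⟨e3, e4⟩ := Y1_lab b' hq a2 _ _ _ rfl rfl rfl
    have := lr_rr n ((X1 S T).O n w) p
    have := lr_rr n ((Y1 S T).O n w') q
    have := hT n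
    rw [e1, e2, e3, e4, ← r2]
    by_cases c1 : S n <;> by_cases c2 : T n <;> simp only [c1, c2, if_true, if_false] at * <;>
      split_ifs <;> omega

end Pool.Agent.H.MP_668c10_co
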