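import Pool.Agent.H.MP_668c10_co.B

set_option autoImplicit false

namespace Pool.Agent.H.MP_668c10_co

open Finset Equiv Classical Pool.Agent.H.MP_911b3a_co

variable {S T : ℕ → Prop} {w : ℕ → ℕ} {n p : ℕ}

def c2B (T : ℕ → Prop) (n : ℕ) (w : ℕ → ℕ) : Prop :=
  ∀ k j i, k < j → j < i → i + 1 < n → T (w (i + 1)) → w i < w k → w k < w (i + 1) →
    w j ≤ w (i + 1)
def a2B (T : ℕ → Prop) (n : ℕ) (w : ℕ → ℕ) (p : ℕ) : Prop :=
  ∀ k i, k < p → p ≤ i → i + 1 < n → T (w (i + 1)) → w i < w k → w (i + 1) ≤ w k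
def KB (w : ℕ → ℕ) (p q : ℕ) : Prop := q < p ∧ ∀ k < q, w k ≤ w (p - 1)

lemma up_s (hT : ∀ v, T v → S v) (ho : op S n w p) {i : ℕ} (h : i + 1 < n) (g : T (w (i + 1))) :
    up p i + 1 = up p (i + 1) := by
  have : i + 1 ≠ p := fun e => ho (by omega) (hT _ (e ▸ g))
  have := up_c p i; have := up_c p (i + 1)
  omega

lemma tri (p i : ℕ) : i + 1 = p ∨ i = p ∨ ∃ j, i = up p j ∧ i + 1 = up p (j + 1) := by
  rcases lt_trichotomy i p with h | h | h
  · have := up_c p i; have := up_c p (i + 1)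
    by_cases g : i + 1 = p
    · exact Or.inl g
    · exact Or.inr (Or.inr ⟨i, by omega, by omega⟩)
  · exact Or.inr (Or.inl h)
  · have := up_c p (i - 1); have := up_c p (i - 1 + 1)
    exact Or.inr (Or.inr ⟨i - 1, by omega, by omega⟩)

lemma c2B_ins (hT : ∀ v, T v → S v) (hw : Bd n w) (hp : p ≤ n) (ho : op S n w p) :
    c2B T (n + 1) (insF w p n) ↔ c2B T n w ∧ a2B T n w p := by
  constructor
  · intro h
    refine ⟨fun a b c h1 h2 h3 h4 => ?_, fun k i h1 h2 h3 h4 => ?_⟩
    · have := up_c p a; have := up_c p b; have := up_c p c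
      have := h (up p a) (up p b) (up p c) (by omega) (by omega) (by omega)
      rw [up_s hT ho h3 h4] at this
      simp only [ins_up] at this
      exact this h4
    · have := h k p (i + 1) h1 (by omega) (by omega)
      rw [ins_lo h1, ins_eq, ins_hi h2, ins_hi (by omega)] at this
      have := this h4
      have := hw _ h3
      omega
  · rintro ⟨g1, g2⟩ a b c h1 h2 h3
    rcases tri p c with g | rfl | ⟨c, rfl, g⟩
    · rw [g, ins_eq, ins_lo (i := b) (by omega)]
      have := hw b (by omega)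
      omega
    · rw [ins_eq, ins_lo (h1.trans h2)]
      have := hw a (by omega)
      omega
    have := up_c p c; have := up_c p (c + 1)
    rw [g]
    have := hw (c + 1) (by omega)
    rcases up_or p a with rfl | ⟨a, rfl⟩
    · simp only [ins_eq, ins_up]; omega
    have := up_c p a
    rcases up_or p b with rfl | ⟨b, rfl⟩
    · simp only [ins_eq, ins_up]
      intro h4
      have := g2 a c (by omega) (by omega) (by omega) h4
      omega
    have := up_c p b
    simp only [ins_up]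
    exact g1 a b c (by omega) (by omega) (by omega)

lemma a2B_hi (hw : Bd n w) {q : ℕ} (h : p ≤ q) :
    a2B T (n + 1) (insF w p n) (q + 1) ↔ a2B T n w q := by
  constructor
  · intro g a b h1 h2 h3
    have := up_c p a
    have := g (up p a) (b + 1) (by omega) (by omega) (by omega)
    rwa [ins_up, ins_hi (by omega), ins_hi (by omega)] at this
  · intro g a b h1 h2 h3
    obtain ⟨b, rfl⟩ : ∃ j, b = j + 1 := ⟨b - 1, by omega⟩
    rw [ins_hi (by omega), ins_hi (by omega)]
    have := hw (b + 1) (by omega)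
    rcases up_or p a with rfl | ⟨a, rfl⟩
    · rw [ins_eq]; omega
    have := up_c p a
    rw [ins_up]
    exact g a b (by omega) (by omega) (by omega)

lemma a2B_lo (hT : ∀ v, T v → S v) (hw : Bd n w) (hp : p ≤ n) (ho : op S n w p) {q : ℕ}
    (h : q ≤ p) : a2B T (n + 1) (insF w p n) q ↔
      a2B T n w q ∧ (T n → q < p → ∀ k < q, w k ≤ w (p - 1)) := by
  constructor
  · intro g
    refine ⟨fun a b h1 h2 h3 h4 => ?_, fun h1 h2 k h3 => ?_⟩
    · have := up_c p b
      have := g a (up p b) h1 (by omega) (by omega)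
      rw [up_s hT ho h3 h4, ins_up, ins_up, ins_lo (by omega)] at this
      exact this h4
    · have := g k (p - 1) h3 (by omega) (by omega)
      rw [show p - 1 + 1 = p by omega, ins_eq, ins_lo (by omega), ins_lo (by omega)] at this
      have := this h1
      have := hw k (by omega)
      omega
  · rintro ⟨g1, g2⟩ a c h1 h2 h3
    rw [ins_lo (i := a) (by omega)]
    have := hw a (by omega)
    rcases tri p c with g | rfl | ⟨c, rfl, g⟩
    · rw [g, ins_eq, ins_lo (by omega)]
      intro h4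
      have := g2 h4 (by omega) a h1
      rw [show p - 1 = c by omega] at this
      omega
    · rw [ins_eq]; omega
    have := up_c p c; have := up_c p (c + 1)
    rw [g, ins_up, ins_up]
    exact g1 a c h1 (by omega) (by omega)

def X2 (hT : ∀ v, T v → S v) : Cls S where
  V n w := AS S n w ∧ c2B T n w
  O n w p := op S n w p ∧ a2B T n w p
  v0 w := ⟨fun _ h => by omega, fun _ _ _ _ _ h => by omega⟩
  o0 n w h := ⟨op_0 h.1, fun _ _ h => by omega⟩
  step n w p h1 h2 := by
    rw [AS_ins h1 h2]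
    have := c2B_ins hT h1 h2
    tauto

def UU (S T : ℕ → Prop) (n : ℕ) (w : ℕ → ℕ) (p x : ℕ) : Prop :=
  x ≤ p ∧ (S n → x < p) ∧ (T n → KB w p x)

lemma UU.mono {x y : ℕ} (h : UU S T n w p x) (g : y ≤ x) : UU S T n w p y :=
  ⟨g.trans h.1, fun a => g.trans_lt (h.2.1 a), fun a =>
    ⟨g.trans_lt (h.2.2 a).1, fun k hk => (h.2.2 a).2 k (by omega)⟩⟩

variable (hT : ∀ v, T v → S v)

lemma X2_lo (hw : Bd n w) (hp : p ≤ n) (h : (X2 hT).O n w p) {x : ℕ} (hx : x ≤ p) :
    (X2 hT).O (n + 1) (insF w p n) x ↔ (X2 hT).O n w x ∧ UU S T n w p x := by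
  have := hT n
  rcases hx.lt_or_eq with g | rfl
  · simp only [X2, UU, KB, op_lo hp g, a2B_lo hT hw hp h.1 hx]; tauto
  · simp only [X2, UU, KB, op_eq hp, a2B_lo hT hw hp h.1 hx, lt_irrefl] at h ⊢; tauto

lemma X2_hi (hw : Bd n w) {x : ℕ} (hx : p ≤ x) :
    (X2 hT).O (n + 1) (insF w p n) (x + 1) ↔ (X2 hT).O n w x := by
  simp only [X2, op_hi hx, a2B_hi hw hx]

lemma X2_ct (hw : Bd n w) (hp : p ≤ n) (h : (X2 hT).O n w p) (R : ℕ → Prop) :
    ct (n + 1) (fun x => (X2 hT).O (n + 1) (insF w p n) x ∧ R x) =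
      ct n (fun x => (X2 hT).O n w x ∧ UU S T n w p x ∧ R x) +
      ct n (fun x => (X2 hT).O n w x ∧ p ≤ x ∧ R (x + 1)) := by
  rw [ct_split _ hp]
  congr 1
  · refine ct_congr fun x _ => ?_
    by_cases g : x ≤ p
    · simp only [X2_lo hT hw hp h g]; tauto
    · simp [g, UU]
  · refine ct_congr fun x _ => ?_
    by_cases g : p ≤ x
    · simp only [X2_hi hT hw g]; tauto
    · simp [g]

noncomputable def bb (n : ℕ) (w : ℕ → ℕ) (q : ℕ) : ℕ := ct n fun x => (X2 hT).O n w x ∧ KB w q x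

lemma X2_lab (hw : Bd n w) (hp : p ≤ n) (h : (X2 hT).O n w p) (v : ℕ)
    (hv : v = ct n fun x => (X2 hT).O n w x ∧ UU S T n w p x) :
    v = (if T n then bb hT n w p else lr n ((X2 hT).O n w) p + if S n then 0 else 1) ∧
    ct (n + 1) ((X2 hT).O (n + 1) (insF w p n)) = v + rr n ((X2 hT).O n w) p ∧
    ∀ q ≤ n + 1, (X2 hT).O (n + 1) (insF w p n) q → q ≠ 0 → ∀ l b,
      l = lr (n + 1) ((X2 hT).O (n + 1) (insF w p n)) q → b = bb hT (n + 1) (insF w p n) q →
      (q ≤ n ∧ (X2 hT).O n w q ∧ l = lr n ((X2 hT).O n w) q ∧ l < v ∧ b = bb hT n w q) ∨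
      (l = v ∧ b = v) ∨
      (∃ x ≤ n, (X2 hT).O n w x ∧ x ≠ 0 ∧ v < l ∧
        l + lr n ((X2 hT).O n w) p = v + lr n ((X2 hT).O n w) x ∧ b = min (bb hT n w x) v) := by
  refine ⟨?_, ?_, fun q hq h1 h0 l b hl hb => ?_⟩
  · rw [hv]
    by_cases a : T n
    · rw [if_pos a]
      exact ct_congr fun x _ => and_congr_right fun _ =>
        ⟨fun g => g.2.2 a, fun g => ⟨g.1.le, fun _ => g.1, fun _ => g⟩⟩
    · rw [if_neg a, ct_add (R1 := fun x => (X2 hT).O n w x ∧ x < p) (R2 := fun x => x = p ∧ ¬ S n)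
        (fun x _ => by
          rcases lt_trichotomy x p with g | rfl | g
          · simp [UU, a, g, g.le, g.ne]
          · simp [UU, a, h]
          · simp [UU, a, g.ne', not_le.2 g, g.le]) (fun x _ => by omega), ct_one hp, lr]
      by_cases c : S n <;> simp [c]
  · have := X2_ct hT hw hp h (fun _ => True)
    simp only [and_true] at this
    rw [hv]; exact this
  rw [lr, X2_ct hT hw hp h] at hl
  rw [bb, X2_ct hT hw hp h] at hb
  rcases lt_trichotomy q (p + 1) with g | rfl | g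
  · have g' : q ≤ p := by omega
    obtain ⟨h2, h3⟩ := (X2_lo hT hw hp h g').1 h1
    rw [ct_zero (R := fun x => _ ∧ p ≤ x ∧ x + 1 < q) (fun x _ a => by omega), add_zero] at hl
    rw [ct_zero (R := fun x => _ ∧ p ≤ x ∧ KB _ q (x + 1))
      (fun x _ a => by have := a.2.2.1; omega), add_zero] at hb
    refine Or.inl ⟨by omega, h2, hl.trans (ct_congr fun x _ => and_congr_right fun _ =>
      ⟨fun a => a.2, fun a => ⟨h3.mono a.le, a⟩⟩), ?_, hb.trans (ct_congr fun x _ =>
        and_congr_right fun _ => ?_)⟩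
    · rw [hl, hv]
      exact ct_lt (fun x _ a => ⟨a.1, a.2.1⟩) (by omega) ⟨h2, h3⟩ (by simp)
    · have : KB (insF w p n) q x ↔ KB w q x := and_congr_right fun a => forall_congr' fun k =>
        forall_congr' fun _ => by rw [ins_lo (by omega), ins_lo (by omega)]
      rw [this]
      exact ⟨fun a => a.2, fun a => ⟨h3.mono a.1.le, a⟩⟩
  · rw [ct_zero (R := fun x => _ ∧ p ≤ x ∧ x + 1 < p + 1) (fun x _ a => by omega), add_zero] at hl
    rw [ct_zero (R := fun x => _ ∧ p ≤ x ∧ KB _ (p + 1) (x + 1))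
      (fun x _ a => by have := a.2.2.1; omega), add_zero] at hb
    refine Or.inr (Or.inl ⟨hl.trans (Eq.trans (ct_congr fun x _ => and_congr_right fun _ =>
      ⟨fun a => a.1, fun a => ⟨a, by have := a.1; omega⟩⟩) hv.symm),
      hb.trans (Eq.trans (ct_congr fun x _ => and_congr_right fun _ =>
      ⟨fun a => a.1, fun a => ⟨a, by have := a.1; omega, fun k hk => ?_⟩⟩) hv.symm)⟩)
    have := a.1
    rw [Nat.add_sub_cancel, ins_eq, ins_lo (by omega)]
    exact (hw k (by omega)).le
  · obtain ⟨q, rfl⟩ : ∃ j, q = j + 1 + 1 := ⟨q - 2, by omega⟩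
    have h2 := (X2_hi hT hw (by omega)).1 h1
    have e1 : ct n (fun x => (X2 hT).O n w x ∧ UU S T n w p x ∧ x < q + 1 + 1) = v :=
      Eq.trans (ct_congr fun x _ => and_congr_right fun _ =>
        ⟨fun a => a.1, fun a => ⟨a, by have := a.1; omega⟩⟩) hv.symm
    have e2 : lr n ((X2 hT).O n w) (q + 1) = lr n ((X2 hT).O n w) p +
        ct n (fun x => (X2 hT).O n w x ∧ p ≤ x ∧ x + 1 < q + 1 + 1) :=
      ct_add (fun x _ => by by_cases (X2 hT).O n w x <;> simp [*]; omega) (fun x _ => by omega)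
    have e3 := lr_lt hp h (show p < q + 1 by omega)
    refine Or.inr (Or.inr ⟨q + 1, by omega, h2, by omega, by omega, by omega, ?_⟩)
    rw [ct_zero (R := fun x => _ ∧ p ≤ x ∧ KB _ (q + 1 + 1) (x + 1)) (fun x _ a => by
      have := a.2.2.2 p (by omega)
      rw [ins_eq, Nat.add_sub_cancel, ins_hi (by omega)] at this
      have := hw q (by omega)
      omega), add_zero] at hb
    rw [hb, min_comm, hv, bb, ← ct_min _ _ _ (fun x y a b c => a.mono (by
      by_contra g
      exact b ⟨by have := c.1; omega, fun k hk => c.2 k (by omega)⟩))]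
    refine ct_congr fun x _ => and_congr_right fun _ => and_congr_right fun a => ?_
    have := a.1
    refine and_congr (by omega) (forall_congr' fun k => forall_congr' fun _ => ?_)
    rw [ins_lo (by omega), Nat.add_sub_cancel, Nat.add_sub_cancel, ins_hi (by omega)]

end Pool.Agent.H.MP_668c10_co
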