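import Pool.Agent.H.MP_668c10_co.C

set_option autoImplicit false

namespace Pool.Agent.H.MP_668c10_co

open Finset Equiv Classical Pool.Agent.H.MP_911b3a_co

variable {S T : ℕ → Prop} {w : ℕ → ℕ} {n p : ℕ}

def c2A (T : ℕ → Prop) (n : ℕ) (w : ℕ → ℕ) : Prop :=
  ∀ i j k, i + 1 < j → j < k → k < n → T (w (i + 1)) → w i < w k → w k < w (i + 1) →
    w j ≤ w (i + 1)
def a2A (T : ℕ → Prop) (n : ℕ) (w : ℕ → ℕ) (p : ℕ) : Prop :=
  ∀ i k, i + 1 < p → p ≤ k → k < n → T (w (i + 1)) → w i < w k → w (i + 1) ≤ w k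
def KA (n : ℕ) (w : ℕ → ℕ) (p q : ℕ) : Prop := p ≤ q ∧ ∀ k, q ≤ k → k < n → w k ≤ w (p - 1)

lemma c2A_ins (hT : ∀ v, T v → S v) (hw : Bd n w) (hp : p ≤ n) (ho : op S n w p) :
    c2A T (n + 1) (insF w p n) ↔ c2A T n w ∧ a2A T n w p := by
  constructor
  · intro h
    refine ⟨fun a b c h1 h2 h3 h4 => ?_, fun i k h1 h2 h3 h4 => ?_⟩
    · have := up_c p (a + 1); have := up_c p b; have := up_c p c
      have e := up_s hT ho (show a + 1 < n by omega) h4
      have := h (up p a) (up p b) (up p c) (by omega) (by omega) (by omega)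
      rw [e] at this
      simp only [ins_up] at this
      exact this h4
    · have := h i p (k + 1) h1 (by omega) (by omega)
      rw [ins_lo h1, ins_eq, ins_hi h2, ins_lo (by omega)] at this
      have := this h4
      have := hw (i + 1) (by omega)
      omega
  · rintro ⟨g1, g2⟩ a b c h1 h2 h3
    have := (hw.ins hp) b (by omega)
    have := (hw.ins hp) c h3
    rcases tri p a with g | rfl | ⟨a, rfl, g⟩
    · rw [g, ins_eq]; omega
    · rw [ins_eq]; omega
    have := up_c p a; have := up_c p (a + 1)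
    rw [g]
    have := hw (a + 1) (by omega)
    rcases up_or p c with rfl | ⟨c, rfl⟩
    · simp only [ins_eq, ins_up]; omega
    have := up_c p c
    rcases up_or p b with rfl | ⟨b, rfl⟩
    · simp only [ins_eq, ins_up]
      intro h4
      have := g2 a c (by omega) (by omega) (by omega) h4
      omega
    have := up_c p b
    simp only [ins_up]
    exact g1 a b c (by omega) (by omega) (by omega)

lemma a2A_lo (hw : Bd n w) (hp : p ≤ n) {q : ℕ} (h : q ≤ p) :
    a2A T (n + 1) (insF w p n) q ↔ a2A T n w q := by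
  constructor
  · intro g a b h1 h2 h3
    have := up_c p b
    have := g a (up p b) h1 (by omega) (by omega)
    rwa [ins_up, ins_lo (by omega), ins_lo (by omega)] at this
  · intro g a b h1 h2 h3
    rw [ins_lo (i := a) (by omega), ins_lo (i := a + 1) (by omega)]
    have := hw (a + 1) (by omega)
    rcases up_or p b with rfl | ⟨b, rfl⟩
    · rw [ins_eq]; omega
    have := up_c p b
    rw [ins_up]
    exact g a b h1 (by omega) (by omega)

lemma a2A_hi (hT : ∀ v, T v → S v) (hw : Bd n w) (ho : op S n w p) (h0 : S n → p ≠ 0) {q : ℕ}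
    (h : p ≤ q) : a2A T (n + 1) (insF w p n) (q + 1) ↔
      a2A T n w q ∧ (T n → ∀ k, q ≤ k → k < n → w k ≤ w (p - 1)) := by
  constructor
  · intro g
    refine ⟨fun a b h1 h2 h3 h4 => ?_, fun h1 k h2 h3 => ?_⟩
    · have := up_c p (a + 1)
      have e := up_s hT ho (show a + 1 < n by omega) h4
      have := g (up p a) (b + 1) (by omega) (by omega) (by omega)
      rw [e, ins_up, ins_up, ins_hi (by omega)] at this
      exact this h4
    · have := h0 (hT _ h1)
      have := g (p - 1) (k + 1) (by omega) (by omega) (by omega)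
      rw [show p - 1 + 1 = p by omega, ins_eq, ins_lo (by omega), ins_hi (by omega)] at this
      have := this h1
      have := hw k h3
      omega
  · rintro ⟨g1, g2⟩ a c h1 h2 h3
    obtain ⟨c, rfl⟩ : ∃ j, c = j + 1 := ⟨c - 1, by omega⟩
    rw [ins_hi (i := c) (by omega)]
    have := hw c (by omega)
    rcases tri p a with g | rfl | ⟨a, rfl, g⟩
    · rw [g, ins_eq, ins_lo (by omega)]
      intro h4
      have := g2 h4 c (by omega) (by omega)
      rw [show p - 1 = a by omega] at this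
      omega
    · rw [ins_eq]; omega
    have := up_c p a; have := up_c p (a + 1)
    rw [g, ins_up, ins_up]
    exact g1 a c (by omega) (by omega) (by omega)

def Y2 (hT : ∀ v, T v → S v) : Cls S where
  V n w := AS S n w ∧ c2A T n w
  O n w p := op S n w p ∧ a2A T n w p
  v0 w := ⟨fun _ h => by omega, fun _ _ _ _ _ h => by omega⟩
  o0 n w h := ⟨op_0 h.1, fun _ _ h => by omega⟩
  step n w p h1 h2 := by
    rw [AS_ins h1 h2]
    have := c2A_ins hT h1 h2
    tauto

def VV (T : ℕ → Prop) (n : ℕ) (w : ℕ → ℕ) (p x : ℕ) : Prop := p ≤ x ∧ (T n → KA n w p x)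

lemma VV.mono {x y : ℕ} (h : VV T n w p x) (g : x ≤ y) : VV T n w p y :=
  ⟨h.1.trans g, fun a => ⟨h.1.trans g, fun k hk => (h.2 a).2 k (by omega)⟩⟩

variable (hT : ∀ v, T v → S v)

lemma Y2_lo (hw : Bd n w) (hp : p ≤ n) (h : (Y2 hT).O n w p) {x : ℕ} (hx : x ≤ p) :
    (Y2 hT).O (n + 1) (insF w p n) x ↔ (Y2 hT).O n w x ∧ (S n → x < p) := by
  rcases hx.lt_or_eq with g | rfl
  · simp only [Y2, op_lo hp g, a2A_lo hw hp hx]; tauto
  · simp only [Y2, op_eq hp, a2A_lo hw hp hx, lt_irrefl] at h ⊢; tauto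

lemma Y2_hi (hw : Bd n w) (h : (Y2 hT).O n w p) (h0 : S n → p ≠ 0) {x : ℕ} (hx : p ≤ x) :
    (Y2 hT).O (n + 1) (insF w p n) (x + 1) ↔ (Y2 hT).O n w x ∧ VV T n w p x := by
  simp only [Y2, VV, KA, op_hi hx, a2A_hi hT hw h.1 h0 hx]; tauto

lemma Y2_ct (hw : Bd n w) (hp : p ≤ n) (h : (Y2 hT).O n w p) (h0 : S n → p ≠ 0) (R : ℕ → Prop) :
    ct (n + 1) (fun x => (Y2 hT).O (n + 1) (insF w p n) x ∧ R x) =
      ct n (fun x => (Y2 hT).O n w x ∧ (x ≤ p ∧ (S n → x < p)) ∧ R x) +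
      ct n (fun x => (Y2 hT).O n w x ∧ VV T n w p x ∧ R (x + 1)) := by
  rw [ct_split _ hp]
  congr 1
  · refine ct_congr fun x _ => ?_
    by_cases g : x ≤ p
    · simp only [Y2_lo hT hw hp h g]; tauto
    · simp [g]
  · refine ct_congr fun x _ => ?_
    by_cases g : p ≤ x
    · simp only [Y2_hi hT hw h h0 g]; tauto
    · simp [g, VV]

noncomputable def rho (n : ℕ) (w : ℕ → ℕ) (q : ℕ) : ℕ := ct n fun x => (Y2 hT).O n w x ∧ KA n w q x

lemma ct_seg {O : ℕ → Prop} {s : Prop} (hp : p ≤ n) (h : O p) {q : ℕ} (hq : q ≤ p) :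
    ct n (fun x => O x ∧ (x ≤ p ∧ (s → x < p)) ∧ q ≤ x) + rr n O p =
      rr n O q + if s then 0 else 1 := by
  rw [ct_add (R1 := fun x => O x ∧ q ≤ x ∧ x < p) (R2 := fun x => x = p ∧ ¬ s) (fun x _ => by
      rcases lt_trichotomy x p with g | rfl | g
      · simp [g, g.le, g.ne]
      · simp [h, hq]
      · simp [g.ne', not_le.2 g, g.le]) (fun x _ => by omega), ct_one hp, rr, rr,
    ct_add (R := fun x => O x ∧ q ≤ x) (R1 := fun x => O x ∧ q ≤ x ∧ x < p)
      (R2 := fun x => O x ∧ p ≤ x) (fun x _ => by by_cases O x <;> simp [*]; omega)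
      (fun x _ => by omega)]
  by_cases s <;> simp [*]; omega

lemma Y2_lab (hw : Bd n w) (hp : p ≤ n) (h : (Y2 hT).O n w p) (h0 : S n → p ≠ 0) (v : ℕ)
    (hv : v = ct n fun x => (Y2 hT).O n w x ∧ VV T n w p x) :
    v = (if T n then rho hT n w p else rr n ((Y2 hT).O n w) p) ∧
    ct (n + 1) ((Y2 hT).O (n + 1) (insF w p n)) =
      lr n ((Y2 hT).O n w) p + (if S n then 0 else 1) + v ∧
    ∀ q ≤ n + 1, (Y2 hT).O (n + 1) (insF w p n) q → q ≠ 0 → ∀ l b,
      l = rr (n + 1) ((Y2 hT).O (n + 1) (insF w p n)) q → b = rho hT (n + 1) (insF w p n) q →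
      (∃ x ≤ n, (Y2 hT).O n w x ∧ x ≠ 0 ∧ l = rr n ((Y2 hT).O n w) x ∧ l ≤ v ∧
        l < rr n ((Y2 hT).O n w) p ∧ b = rho hT n w x) ∨
      (l = v ∧ b = v) ∨
      (q ≤ n ∧ (Y2 hT).O n w q ∧ v < l ∧ l + rr n ((Y2 hT).O n w) p =
        v + rr n ((Y2 hT).O n w) q + (if S n then 0 else 1) ∧ b = min (rho hT n w q) v) := by
  refine ⟨?_, ?_, fun q hq h1 h0' l b hl hb => ?_⟩
  · rw [hv]
    by_cases a : T n
    · rw [if_pos a]
      exact ct_congr fun x _ => and_congr_right fun _ =>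
        ⟨fun g => g.2 a, fun g => ⟨g.1, fun _ => g⟩⟩
    · rw [if_neg a]
      exact ct_congr fun x _ => by simp [VV, a]
  · have := Y2_ct hT hw hp h h0 (fun x => 0 ≤ x)
    have e := ct_seg (s := S n) hp h (Nat.zero_le p)
    have e1 := lr_rr n ((Y2 hT).O n w) p
    have e2 := lr_rr n ((Y2 hT).O n w) 0
    rw [lr_zero] at e2
    simp only [Nat.zero_le, and_true] at this e
    rw [hv]
    refine this.trans ?_
    omega
  rw [rr, Y2_ct hT hw hp h h0] at hl
  rw [rho, Y2_ct hT hw hp h h0] at hb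
  rcases lt_trichotomy q (p + 1) with g | rfl | g
  · have g' : q ≤ p := by omega
    obtain ⟨h2, h3⟩ := (Y2_lo hT hw hp h g').1 h1
    have e1 : ct n (fun x => (Y2 hT).O n w x ∧ VV T n w p x ∧ q ≤ x + 1) = v :=
      Eq.trans (ct_congr fun x _ => and_congr_right fun _ =>
        ⟨fun a => a.1, fun a => ⟨a, by have := a.1; omega⟩⟩) hv.symm
    have e2 := ct_seg (s := S n) hp h g'
    have e3 : 0 < ct n (fun x => (Y2 hT).O n w x ∧ (x ≤ p ∧ (S n → x < p)) ∧ q ≤ x) :=
      (Nat.zero_le _).trans_lt (ct_lt (R := fun _ => False) (p := q) (fun _ _ a => a.elim) (by omega)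
        ⟨h2, ⟨g', h3⟩, le_rfl⟩ id)
    refine Or.inr (Or.inr ⟨by omega, h2, by omega, by omega, ?_⟩)
    rw [ct_zero (R := fun x => _ ∧ (x ≤ p ∧ _) ∧ KA _ _ q x) (fun x _ a => by
      have := a.2.2.2 p a.2.1.1 (by omega)
      rw [ins_eq, ins_lo (by omega)] at this
      have := hw (q - 1) (by omega)
      omega), zero_add] at hb
    rw [hb, min_comm, hv, rho, ← ct_min _ _ _ (fun x y a b c => a.mono (by
      by_contra g
      exact b ⟨by have := c.1; omega, fun k hk => c.2 k (by omega)⟩))]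
    refine ct_congr fun x _ => and_congr_right fun _ => and_congr_right fun a => ?_
    have := a.1
    simp only [KA, ins_lo (show q - 1 < p by omega)]
    refine and_congr (by omega) ⟨fun c k k1 k2 => ?_, fun c k k1 k2 => ?_⟩
    · simpa only [ins_hi (show p ≤ k by omega)] using c (k + 1) (by omega) (by omega)
    · obtain ⟨k, rfl⟩ : ∃ j, k = j + 1 := ⟨k - 1, by omega⟩
      rw [ins_hi (by omega)]
      exact c k (by omega) (by omega)
  · rw [ct_zero (R := fun x => _ ∧ (x ≤ p ∧ _) ∧ p + 1 ≤ x) (fun x _ a => by omega), zero_add] at hl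
    rw [ct_zero (R := fun x => _ ∧ (x ≤ p ∧ _) ∧ KA _ _ (p + 1) x)
      (fun x _ a => by have := a.2.2.1; omega), zero_add] at hb
    refine Or.inr (Or.inl ⟨hl.trans (Eq.trans (ct_congr fun x _ => and_congr_right fun _ =>
      ⟨fun a => a.1, fun a => ⟨a, by have := a.1; omega⟩⟩) hv.symm),
      hb.trans (Eq.trans (ct_congr fun x _ => and_congr_right fun _ =>
      ⟨fun a => a.1, fun a => ⟨a, by have := a.1; omega, fun k _ hk => ?_⟩⟩) hv.symm)⟩)
    rw [Nat.add_sub_cancel, ins_eq]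
    have := (hw.ins hp) k hk
    omega
  · obtain ⟨q, rfl⟩ : ∃ j, q = j + 1 + 1 := ⟨q - 2, by omega⟩
    obtain ⟨h2, h3⟩ := (Y2_hi hT hw h h0 (by omega)).1 h1
    rw [ct_zero (R := fun x => _ ∧ (x ≤ p ∧ _) ∧ q + 1 + 1 ≤ x) (fun x _ a => by omega),
      zero_add] at hl
    rw [ct_zero (R := fun x => _ ∧ (x ≤ p ∧ _) ∧ KA _ _ (q + 1 + 1) x)
      (fun x _ a => by have := a.2.2.1; omega), zero_add] at hb
    have e : l = rr n ((Y2 hT).O n w) (q + 1) := hl.trans (ct_congr fun x _ =>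
      and_congr_right fun _ => ⟨fun a => by omega, fun a => ⟨h3.mono a, by omega⟩⟩)
    refine Or.inl ⟨q + 1, by omega, h2, by omega, e, ?_, ?_, hb.trans (ct_congr fun x _ =>
        and_congr_right fun _ => ?_)⟩
    · rw [hl, hv]
      exact ct_mono fun x _ a => ⟨a.1, a.2.1⟩
    · rw [e]
      exact ct_lt (fun x _ a => ⟨a.1, by omega⟩) hp ⟨h, le_rfl⟩ (by omega)
    · simp only [KA, Nat.add_sub_cancel, ins_hi (show p ≤ q by omega)]
      refine ⟨fun c => ⟨by omega, fun k k1 k2 => ?_⟩,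
        fun c => ⟨h3.mono c.1, by omega, fun k k1 k2 => ?_⟩⟩
      · simpa only [ins_hi (show p ≤ k by omega)] using c.2.2 (k + 1) (by omega) (by omega)
      · obtain ⟨k, rfl⟩ : ∃ j, k = j + 1 := ⟨k - 1, by omega⟩
        rw [ins_hi (by omega)]
        exact c.2 k (by omega) (by omega)

theorem Q2core (n : ℕ) :
    (univ.filter fun π : Perm (Fin n) => (X2 hT).V n (val π)).card =
      (univ.filter fun π : Perm (Fin n) => (Y2 hT).V n (val π)).card := by
  refine simul _ _ (fun n w w' => ct n ((X2 hT).O n w) = ct n ((Y2 hT).O n w') ∧ ∃ a : ℕ → ℕ,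
    (∀ q ≤ n, (X2 hT).O n w q → q ≠ 0 → a (lr n ((X2 hT).O n w) q) = bb hT n w q) ∧
    (∀ q ≤ n, (Y2 hT).O n w' q → q ≠ 0 → a (rr n ((Y2 hT).O n w') q) = rho hT n w' q) ∧
    ∀ t, 1 ≤ t → t < ct n ((X2 hT).O n w) → 1 ≤ a t ∧ a t ≤ t ∧ a (a t) = a t)
    ⟨ct_congr fun q hq => by simp [X2, Y2, a2A, a2B], id, fun _ _ _ _ => by omega,
      fun _ _ _ _ => by omega, fun t h _ => ⟨h, le_rfl, rfl⟩⟩ (fun _ _ _ h => h.1) ?_ n
  rintro n w w' p q b b' ⟨r1, a, r2, r3, r4⟩ hp hq a1 a2 a3 a4 a5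
  obtain ⟨e1, e2, e3⟩ := X2_lab hT b hp a1 _ rfl
  obtain ⟨f1, f2, f3⟩ := Y2_lab hT b' hq a2 a4 _ rfl
  have c1 := lr_rr n ((X2 hT).O n w) p
  have c2 := lr_rr n ((Y2 hT).O n w') q
  have c3 := lr_ltN hp a1
  have c4 := lr_ltN hq a2
  generalize ct n (fun x => (X2 hT).O n w x ∧ UU S T n w p x) = v at *
  generalize ct n (fun x => (Y2 hT).O n w' x ∧ VV T n w' q x) = v' at *
  generalize ht : lr n ((X2 hT).O n w) p = t at *
  have hv : v' = v ∧ 1 ≤ v ∧ v ≤ rr n ((Y2 hT).O n w') q ∧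
      (v < rr n ((Y2 hT).O n w') q → a v = v) := by
    by_cases c : T n
    · have s := hT _ c
      rw [if_pos c] at e1 f1
      rw [if_pos s] at a5
      rw [← r2 p hp a1 (a3 s), ht] at e1
      rw [← r3 q hq a2 (a4 s), ← a5, add_zero] at f1
      have := r4 t (by omega) c3
      rw [← e1] at this
      omega
    · rw [if_neg c] at e1 f1
      omega
  obtain ⟨rfl, v1, v2, v3⟩ := hv
  have he : (if S n then 0 else 1) ≤ 1 := by split_ifs <;> omega
  refine ⟨by omega, fun s => if s < v' then a s else if s = v' then v' else min (a (s + t - v')) v',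
    fun x hx g g0 => ?_, fun x hx g g0 => ?_, fun s s1 s2 => ?_⟩
  · rcases e3 x hx g g0 _ _ rfl rfl with ⟨d1, d2, d3, d4, d5⟩ | ⟨d1, d2⟩ | ⟨y, d1, d2, d3, d4, d5, d6⟩
    · simp only [if_pos d4]
      rw [d5, d3, r2 x d1 d2 g0]
    · simp [d1, d2]
    · simp only [if_neg (not_lt.2 d4.le), if_neg d4.ne']
      rw [d6, ← r2 y d1 d2 d3]
      congr 2; omega
  · rcases f3 x hx g g0 _ _ rfl rfl with ⟨y, d1, d2, d3, d4, d5, d6, d7⟩ | ⟨d1, d2⟩ |
      ⟨d1, d2, d3, d4, d5⟩
    · rw [d7, ← r3 y d1 d2 d3, ← d4]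
      rcases d5.lt_or_eq with k | k
      · simp only [if_pos k]
      · simp [k, v3 (k ▸ d6)]
    · simp [d1, d2]
    · simp only [if_neg (not_lt.2 d3.le), if_neg d3.ne']
      rw [d5, ← r3 x d1 d2 g0]
      congr 2; omega
  · rcases lt_trichotomy s v' with k | rfl | k
    · have := r4 s s1 (by omega)
      simp only [if_pos k, if_pos (show a s < v' by omega)]
      exact this
    · simp [s1]
    · have := r4 (s + t - v') (by omega) (by omega)
      simp only [if_neg (not_lt.2 k.le), if_neg k.ne']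
      refine ⟨by omega, by omega, ?_⟩
      rcases lt_or_ge (a (s + t - v')) v' with k1 | k1
      · simp [k1, k1.le, this.2.2]
      · simp [k1]

end Pool.Agent.H.MP_668c10_co
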