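import Pool.Agent.H.MP_668c10_co.D

set_option autoImplicit false

namespace Pool.Agent.H.MP_668c10_co

open Finset Equiv Classical Pool.Agent.H.MP_911b3a_co

variable {n : ℕ}

def des (π : Perm (Fin n)) : ℕ :=
  (univ.filter fun p : Fin n × Fin n => p.2.val = p.1.val + 1 ∧ π p.2 < π p.1).card

def Cont (q : Fin 4 → ℕ) (π : Perm (Fin n)) : Prop :=
  ∃ f : Fin 4 → Fin n, StrictMono f ∧ (f 1).val = (f 0).val + 1 ∧
    ∀ x y, π (f x) < π (f y) ↔ q x < q y

noncomputable def F (n : ℕ) (q : Fin 4 → ℕ) : Polynomial ℤ :=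
  ∑ π ∈ univ.filter (fun π : Perm (Fin n) => ¬ Cont q π), Polynomial.X ^ des π

lemma incl' {α β : Type*} [Fintype β] [DecidableEq β] (A B : Finset α) (d : α → Finset β)
    (T0 : Finset β) (h : ∀ T, T0 ⊆ T →
      (A.filter (fun a => T ⊆ d a)).card = (B.filter (fun a => T ⊆ d a)).card) :
    (A.filter (fun a => d a = T0)).card = (B.filter (fun a => d a = T0)).card := by
  have := incl (A.filter (fun a => T0 ⊆ d a)) (B.filter (fun a => T0 ⊆ d a)) d (fun T => by
    have := h (T0 ∪ T) subset_union_left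
    simpa only [filter_filter, union_subset_iff] using this) T0
  rw [filter_filter, filter_filter] at this
  convert this using 3 <;> exact ⟨fun h => ⟨h ▸ subset_rfl, h⟩, fun h => h.2⟩

noncomputable def tops (π : Perm (Fin n)) : Finset (Fin n) :=
  univ.filter fun v => 1 ≤ (π.symm v).val ∧ val π ((π.symm v).val - 1) < v

def mp (U : Finset (Fin n)) (v : ℕ) : Prop := ∃ t ∈ U, t.val = v

lemma mp_val (U : Finset (Fin n)) (π : Perm (Fin n)) {i : ℕ} (h : i < n) :
    mp U (val π i) ↔ π ⟨i, h⟩ ∈ U :=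
  ⟨fun ⟨t, h1, h2⟩ => by rwa [← Fin.ext (a := t) (b := π ⟨i, h⟩) (by rw [h2, ← val_fin])],
    fun g => ⟨_, g, by rw [← val_fin]⟩⟩

lemma mp_tops (π : Perm (Fin n)) {i : ℕ} (h : i < n) :
    mp (tops π) (val π i) ↔ 1 ≤ i ∧ val π (i - 1) < val π i := by
  rw [mp_val _ _ h, tops, mem_filter, symm_apply_apply, ← val_fin]
  simp

lemma AS_iff (U : Finset (Fin n)) (π : Perm (Fin n)) : AS (mp U) n (val π) ↔ U ⊆ tops π := by
  constructor
  · intro h t ht
    obtain ⟨i, rfl⟩ := π.surjective t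
    exact (mp_val _ π i.2).1 ((mp_tops π i.2).2 (h i i.2 ((mp_val _ π i.2).2 ht)))
  · intro h i hi g
    exact (mp_tops π hi).1 ((mp_val _ π hi).2 (h ((mp_val _ π hi).1 g)))

lemma final (cA cB : (ℕ → Prop) → ℕ → (ℕ → ℕ) → Prop)
    (h : ∀ S T : ℕ → Prop, (∀ v, T v → S v) →
      (univ.filter fun π : Perm (Fin n) => AS S n (val π) ∧ cA T n (val π)).card =
      (univ.filter fun π : Perm (Fin n) => AS S n (val π) ∧ cB T n (val π)).card)
    (g : Finset (Fin n) → Polynomial ℤ) :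
    ∑ π ∈ univ.filter (fun π : Perm (Fin n) => cA (mp (tops π)) n (val π)), g (tops π) =
      ∑ π ∈ univ.filter (fun π : Perm (Fin n) => cB (mp (tops π)) n (val π)), g (tops π) := by
  have e : ∀ c : (ℕ → Prop) → ℕ → (ℕ → ℕ) → Prop,
      ∑ π ∈ univ.filter (fun π : Perm (Fin n) => c (mp (tops π)) n (val π)), g (tops π) =
      ∑ T, ((univ.filter (fun π : Perm (Fin n) => c (mp T) n (val π))).filter
        (fun π => tops π = T)).card • g T := by
    intro c
    rw [← sum_fiberwise _ tops]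
    refine sum_congr rfl fun T _ => ?_
    rw [sum_congr rfl (g := fun _ => g T) (fun π hπ => by rw [(mem_filter.1 hπ).2]), sum_const]
    congr 2
    ext π
    simp only [mem_filter, mem_univ, true_and]
    exact and_congr_left fun a => by rw [a]
  rw [e, e]
  refine sum_congr rfl fun T _ => ?_
  rw [incl' _ _ tops T fun U hU => ?_]
  have := h (mp U) (mp T) fun v ⟨t, h1, h2⟩ => ⟨t, hU h1, h2⟩
  simp only [AS_iff] at this
  rw [filter_filter, filter_filter]
  convert this using 3 <;> exact and_comm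

lemma des_tops (π : Perm (Fin n)) : des π =
    (univ.filter fun p : Fin n × Fin n => p.2.val = p.1.val + 1).card - (tops π).card := by
  have e : (univ.filter fun p : Fin n × Fin n => p.2.val = p.1.val + 1 ∧ ¬ π p.2 < π p.1).card =
      (tops π).card := by
    refine card_bij (fun p _ => π p.2) (fun p hp => ?_) (fun p hp q hq e => ?_) (fun v hv => ?_)
    · simp only [mem_filter, mem_univ, true_and, tops, symm_apply_apply] at hp ⊢
      rw [hp.1, Nat.add_sub_cancel, val_fin]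
      refine ⟨by omega, lt_of_le_of_ne (not_lt.1 hp.2) fun e => ?_⟩
      have := congrArg Fin.val (π.injective (Fin.ext e))
      omega
    · simp only [mem_filter, mem_univ, true_and] at hp hq
      have := π.injective e
      exact Prod.ext (Fin.ext (by have := congrArg Fin.val this; omega)) this
    · simp only [mem_filter, mem_univ, true_and, tops] at hv ⊢
      refine ⟨(⟨(π.symm v).val - 1, by omega⟩, π.symm v), ⟨by simp only; omega, ?_⟩, by simp⟩
      rw [apply_symm_apply, not_lt, Fin.le_def, ← val_fin]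
      exact hv.2.le
  rw [← e, ← card_filter_add_card_filter_not (s := univ.filter fun p : Fin n × Fin n =>
    p.2.val = p.1.val + 1) (fun p => π p.2 < π p.1), filter_filter, filter_filter,
    Nat.add_sub_cancel, des]

def rc (π : Perm (Fin n)) : Perm (Fin n) := Fin.revPerm * π * Fin.revPerm

lemma rc_rc (π : Perm (Fin n)) : rc (rc π) = π := by ext i; simp [rc]

lemma des_rc (π : Perm (Fin n)) : des (rc π) = des π := by
  refine card_nbij' (fun p => (p.2.rev, p.1.rev)) (fun p => (p.2.rev, p.1.rev)) (fun p hp => ?_)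
    (fun p hp => ?_) (fun p _ => by simp) (fun p _ => by simp)
  · simp [rc] at hp ⊢
    have := p.2.2
    exact ⟨by omega, hp.2⟩
  · simp [rc] at hp ⊢
    have := p.2.2
    exact ⟨by omega, hp.2⟩

def ContL (q : Fin 4 → ℕ) (π : Perm (Fin n)) : Prop :=
  ∃ f : Fin 4 → Fin n, StrictMono f ∧ (f 3).val = (f 2).val + 1 ∧
    ∀ x y, π (f x) < π (f y) ↔ q x < q y

lemma cont_rc {q q' : Fin 4 → ℕ} (h : ∀ x y, q' x < q' y ↔ q y.rev < q x.rev) (π : Perm (Fin n)) :
    Cont q (rc π) ↔ ContL q' π := by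
  constructor
  · rintro ⟨f, h1, h2, h3⟩
    refine ⟨fun x => (f x.rev).rev, fun x y g => Fin.rev_lt_rev.2 (h1 (Fin.rev_lt_rev.2 g)), ?_,
      fun x y => by rw [h, ← h3]; simp [rc]⟩
    have := (f 1).2
    change (f 0).rev.val = (f 1).rev.val + 1
    simp only [Fin.val_rev]; omega
  · rintro ⟨f, h1, h2, h3⟩
    refine ⟨fun x => (f x.rev).rev, fun x y g => Fin.rev_lt_rev.2 (h1 (Fin.rev_lt_rev.2 g)), ?_,
      fun x y => ?_⟩
    · have := (f 3).2
      change (f 2).rev.val = (f 3).rev.val + 1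
      simp only [Fin.val_rev]; omega
    · have := h y.rev x.rev
      rw [Fin.rev_rev, Fin.rev_rev] at this
      rw [← this, ← h3]; simp [rc]

lemma F_rc {q q' : Fin 4 → ℕ} (h : ∀ x y, q' x < q' y ↔ q y.rev < q x.rev) : F n q =
    ∑ π ∈ univ.filter (fun π : Perm (Fin n) => ¬ ContL q' π), Polynomial.X ^ des π := by
  refine (sum_nbij' rc rc (fun π hπ => ?_) (fun π hπ => ?_) (fun π _ => rc_rc π)
    (fun π _ => rc_rc π) (fun π _ => by rw [des_rc])).symm
  · simpa [cont_rc h] using hπ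
  · simpa [← cont_rc h, rc_rc] using hπ

lemma cont_iff (q : Fin 4 → ℕ) (π : Perm (Fin n)) : Cont q π ↔ ∃ i j k : ℕ, i + 1 < j ∧ j < k ∧
    k < n ∧ ∀ x y, val π (![i, i + 1, j, k] x) < val π (![i, i + 1, j, k] y) ↔ q x < q y := by
  constructor
  · rintro ⟨f, h1, h2, h3⟩
    refine ⟨f 0, f 2, f 3, h2 ▸ h1 (show 1 < 2 by decide), h1 (by decide), (f 3).2, fun x y => ?_⟩
    rw [← h3, ← h2, Fin.lt_def, ← val_fin, ← val_fin]
    fin_cases x <;> fin_cases y <;> rfl
  · rintro ⟨i, j, k, h1, h2, h3, h4⟩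
    refine ⟨![⟨i, by omega⟩, ⟨i + 1, by omega⟩, ⟨j, by omega⟩, ⟨k, h3⟩],
      sm4 (Nat.lt_succ_self i) h1 h2, rfl, fun x y => ?_⟩
    rw [← h4, Fin.lt_def, ← val_fin, ← val_fin]
    fin_cases x <;> fin_cases y <;> rfl

lemma contL_iff (q : Fin 4 → ℕ) (π : Perm (Fin n)) : ContL q π ↔ ∃ k j i : ℕ, k < j ∧ j < i ∧
    i + 1 < n ∧ ∀ x y, val π (![k, j, i, i + 1] x) < val π (![k, j, i, i + 1] y) ↔ q x < q y := by
  constructor
  · rintro ⟨f, h1, h2, h3⟩
    refine ⟨f 0, f 1, f 2, h1 (by decide), h1 (by decide), h2 ▸ (f 3).2, fun x y => ?_⟩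
    rw [← h3, ← h2, Fin.lt_def, ← val_fin, ← val_fin]
    fin_cases x <;> fin_cases y <;> rfl
  · rintro ⟨i, j, k, h1, h2, h3, h4⟩
    refine ⟨![⟨i, by omega⟩, ⟨j, by omega⟩, ⟨k, by omega⟩, ⟨k + 1, h3⟩],
      sm4 h1 h2 (Nat.lt_succ_self k), rfl, fun x y => ?_⟩
    rw [← h4, Fin.lt_def, ← val_fin, ← val_fin]
    fin_cases x <;> fin_cases y <;> rfl

lemma av1A (π : Perm (Fin n)) : ¬ Cont ![1, 2, 4, 3] π ↔ c1A (mp (tops π)) n (val π) := by
  rw [cont_iff]
  constructor
  · intro h b j k h1 h2 h3 h4 h5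
    rw [mp_tops π (by omega)] at h4
    obtain ⟨b, rfl⟩ : ∃ j, b = j + 1 := ⟨b - 1, by omega⟩
    rw [Nat.add_sub_cancel] at h4
    by_contra h6
    refine h ⟨b, j, k, h1, h2, h3, fun x y => ?_⟩
    fin_cases x <;> fin_cases y <;> simp <;> omega
  · rintro h ⟨i, j, k, h1, h2, h3, h4⟩
    exact absurd (h (i + 1) j k h1 h2 h3 ((mp_tops π (by omega)).2 ⟨by omega, (h4 0 1).2 (by simp)⟩)
      ((h4 1 3).2 (by simp))) (not_le.2 ((h4 3 2).2 (by simp)))

lemma av1B (π : Perm (Fin n)) : ¬ ContL ![3, 4, 1, 2] π ↔ c1B (mp (tops π)) n (val π) := by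
  rw [contL_iff]
  constructor
  · intro h j k b h1 h2 h3 h4 h5
    rw [mp_tops π (by omega)] at h4
    obtain ⟨b, rfl⟩ : ∃ j, b = j + 1 := ⟨b - 1, by omega⟩
    rw [Nat.add_sub_cancel] at h4
    by_contra h6
    have : k ≠ b := fun e => by subst e; omega
    refine h ⟨j, k, b, h1, by omega, h3, fun x y => ?_⟩
    fin_cases x <;> fin_cases y <;> simp <;> omega
  · rintro h ⟨i, j, k, h1, h2, h3, h4⟩
    exact absurd (h i j (k + 1) h1 (by omega) h3
      ((mp_tops π (by omega)).2 ⟨by omega, (h4 2 3).2 (by simp)⟩)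
      ((h4 3 0).2 (by simp))) (not_le.2 ((h4 0 1).2 (by simp)))

lemma av2A (π : Perm (Fin n)) : ¬ Cont ![1, 3, 4, 2] π ↔ c2A (mp (tops π)) n (val π) := by
  rw [cont_iff]
  constructor
  · intro h i j k h1 h2 h3 _ h5 h6
    by_contra h7
    refine h ⟨i, j, k, h1, h2, h3, fun x y => ?_⟩
    fin_cases x <;> fin_cases y <;> simp <;> omega
  · rintro h ⟨i, j, k, h1, h2, h3, h4⟩
    exact absurd (h i j k h1 h2 h3 ((mp_tops π (by omega)).2 ⟨by omega, (h4 0 1).2 (by simp)⟩)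
      ((h4 0 3).2 (by simp)) ((h4 3 1).2 (by simp))) (not_le.2 ((h4 1 2).2 (by simp)))

lemma av2B (π : Perm (Fin n)) : ¬ ContL ![2, 4, 1, 3] π ↔ c2B (mp (tops π)) n (val π) := by
  rw [contL_iff]
  constructor
  · intro h i j k h1 h2 h3 _ h5 h6
    by_contra h7
    refine h ⟨i, j, k, h1, h2, h3, fun x y => ?_⟩
    fin_cases x <;> fin_cases y <;> simp <;> omega
  · rintro h ⟨i, j, k, h1, h2, h3, h4⟩
    exact absurd (h i j k h1 h2 h3 ((mp_tops π (by omega)).2 ⟨by omega, (h4 2 3).2 (by simp)⟩)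
      ((h4 2 0).2 (by simp)) ((h4 0 3).2 (by simp))) (not_le.2 ((h4 3 1).2 (by simp)))

theorem Q1 (n : ℕ) : F n ![1, 2, 4, 3] = F n ![3, 4, 1, 2] := by
  rw [F_rc (q := ![3, 4, 1, 2]) (q' := ![3, 4, 1, 2]) (by decide), F]
  simp only [av1A, av1B, des_tops]
  exact final c1A c1B (fun S T h => by convert Q1core h n using 3 <;> rfl) (fun U => Polynomial.X ^ (_ - U.card))

theorem Q2 (n : ℕ) : F n ![1, 3, 4, 2] = F n ![2, 4, 1, 3] := by
  rw [F_rc (q := ![2, 4, 1, 3]) (q' := ![2, 4, 1, 3]) (by decide), F]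
  simp only [av2A, av2B, des_tops]
  exact final c2A c2B (fun S T h => by convert (Q2core h n).symm using 3 <;> rfl) (fun U => Polynomial.X ^ (_ - U.card))

end Pool.Agent.H.MP_668c10_co
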